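import Mathlib
import Pool.Agent.Lib.Dominono.Strip

/-!
# Dominono on boards with three rows and an odd number of columns

The second player wins Dominono on the `3 × n` board for every odd `n`.

Idea of the proof.  In a position let `L` be the vacant squares on which the first player may
play without forming a domino, and `R` those of the second player.  The number of squares is odd,
so the second player wins as soon as he always has a reply in `R` to a move in `L`.  The board is
cut into pieces; for every edge between two pieces one of its two squares is forbidden to the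
second player.  If the second player can always reply in every piece, then he can do so on the
whole board.  The pieces are `3 × 4` blocks (with side squares forbidden in a suitable way), and
one window of length `1`, `3`, `7` or `11` around the first move, in which a reply is found with a
finite certificate of 1701 positions, which the kernel checks.
-/

namespace Pool.Agent.Results.MP_ad60cd_co.ThreeRows

open Pool.Agent.Lib.Dominono

/-- The squares of the board with `m` rows and `n` columns. -/
def board (m n : ℕ) : Finset (ℕ × ℕ) := Finset.range m ×ˢ Finset.range n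

/-- Two squares share an edge. -/
def Adj (p q : ℕ × ℕ) : Prop :=
  (p.1 = q.1 ∧ (p.2 + 1 = q.2 ∨ q.2 + 1 = p.2)) ∨ (p.2 = q.2 ∧ (p.1 + 1 = q.1 ∨ q.1 + 1 = p.1))

/-- The set `S` of squares contains two adjacent squares. -/
def HasDomino (S : Finset (ℕ × ℕ)) : Prop := ∃ p ∈ S, ∃ q ∈ S, Adj p q

/-- The vacant squares when the symbols of the first player are on `X` and those of the second
player are on `O`. -/
def vacant (m n : ℕ) (X O : Finset (ℕ × ℕ)) : Finset (ℕ × ℕ) := board m n \ (X ∪ O)

/-- With the first player to move in the position `(X, O)`, the second player can force a win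
within `k` rounds: the board is not full, and each move of the first player either forms a domino
(the first player loses) or has a reply without domino after which the second player can force a
win within `k - 1` rounds. -/
def WinsIn (m n : ℕ) : ℕ → Finset (ℕ × ℕ) → Finset (ℕ × ℕ) → Prop
  | 0, _, _ => False
  | k + 1, X, O => (vacant m n X O).Nonempty ∧ ∀ c ∈ vacant m n X O,
      HasDomino (insert c X) ∨ ∃ d ∈ vacant m n (insert c X) O,
        ¬ HasDomino (insert d O) ∧ WinsIn m n k (insert c X) (insert d O)

/-- The second player has a winning strategy in Dominono on the `m × n` board. -/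
def SecondWins (m n : ℕ) : Prop := ∃ k, WinsIn m n k ∅ ∅

theorem adj_iff {x y : ℕ} (hx : x % 4 < 3) (hy : y % 4 < 3) :
    adj x y ↔ Adj (x % 4, x / 4) (y % 4, y / 4) := by
  unfold adj Adj
  simp only
  omega

theorem Adj_comm {p q : ℕ × ℕ} (h : Adj p q) : Adj q p := by
  unfold Adj at *
  omega

theorem not_Adj_self (p : ℕ × ℕ) : ¬ Adj p p := by
  unfold Adj
  omega

theorem mem_vacant {m n : ℕ} {X O : Finset (ℕ × ℕ)} {p : ℕ × ℕ} :
    p ∈ vacant m n X O ↔ (p.1 < m ∧ p.2 < n) ∧ p ∉ X ∧ p ∉ O := by
  unfold vacant board
  rw [Finset.mem_sdiff, Finset.mem_product, Finset.mem_range, Finset.mem_range, Finset.mem_union,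
    not_or]

/-- Squares on which the first player may play. -/
def LS (n : ℕ) (X O : Finset (ℕ × ℕ)) : Set ℕ :=
  {x | x ∈ B n ∧ (x % 4, x / 4) ∉ X ∧ (x % 4, x / 4) ∉ O ∧ ∀ p ∈ X, ¬ Adj p (x % 4, x / 4)}

/-- Squares on which the second player may play. -/
def RS (n : ℕ) (X O : Finset (ℕ × ℕ)) : Set ℕ :=
  {x | x ∈ B n ∧ (x % 4, x / 4) ∉ X ∧ (x % 4, x / 4) ∉ O ∧ ∀ p ∈ O, ¬ Adj p (x % 4, x / 4)}

theorem wins_of_RW {n : ℕ} {L R : Set ℕ} (h : RW L R) :
    ∀ (X O : Finset (ℕ × ℕ)) (k : ℕ), LS n X O ⊆ L → R ⊆ RS n X O → ¬ HasDomino O →
      Odd (vacant 3 n X O).card → (vacant 3 n X O).card + 1 ≤ 2 * k → WinsIn 3 n k X O := by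
  induction h with
  | mk L R f h1 h2 ih =>
    intro X O k hL hR hO hodd hk
    cases k with
    | zero => omega
    | succ k =>
      refine ⟨?_, ?_⟩
      · rw [Finset.nonempty_iff_ne_empty]
        intro h0
        rw [h0] at hodd
        simp at hodd
      · intro c hc
        have hc' := mem_vacant.1 hc
        by_cases hcX : ∃ p ∈ X, Adj p c
        · left
          obtain ⟨p, hp, hpc⟩ := hcX
          exact ⟨p, Finset.mem_insert_of_mem hp, c, Finset.mem_insert_self c X, hpc⟩
        · right
          push Not at hcX
          -- the code of `c`
          obtain ⟨i, j⟩ := c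
          obtain ⟨⟨hi, hj⟩, hcX1, hcO1⟩ := hc'
          simp only at hi hj
          set x := 4 * j + i with hx
          have ex1 : x % 4 = i := by omega
          have ex2 : x / 4 = j := by omega
          have hxB : x ∈ B n := by rw [mem_B]; omega
          have hxL : x ∈ L := by
            apply hL
            refine ⟨hxB, ?_, ?_, ?_⟩
            · rw [ex1, ex2]; exact hcX1
            · rw [ex1, ex2]; exact hcO1
            · rw [ex1, ex2]; exact hcX
          obtain ⟨hwR, hwx⟩ := h1 x hxL
          set w := f x with hw
          obtain ⟨hwB, hwX, hwO, hwA⟩ := hR hwR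
          have hwB' := mem_B.1 hwB
          have hdne : (w % 4, w / 4) ≠ (i, j) := by
            intro h0
            rw [Prod.mk.injEq] at h0
            omega
          have hdv : (w % 4, w / 4) ∈ vacant 3 n (insert (i, j) X) O := by
            rw [mem_vacant]
            refine ⟨hwB', ?_, hwO⟩
            rw [Finset.mem_insert, not_or]
            exact ⟨hdne, hwX⟩
          have hdom : ¬ HasDomino (insert (w % 4, w / 4) O) := by
            rintro ⟨p, hp, q, hq, hpq⟩
            rw [Finset.mem_insert] at hp hq
            rcases hp with rfl | hp <;> rcases hq with rfl | hq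
            · exact not_Adj_self _ hpq
            · exact hwA q hq (Adj_comm hpq)
            · exact hwA p hp hpq
            · exact hO ⟨p, hp, q, hq, hpq⟩
          have hvac : vacant 3 n (insert (i, j) X) (insert (w % 4, w / 4) O) =
              ((vacant 3 n X O).erase (i, j)).erase (w % 4, w / 4) := by
            ext p
            rw [mem_vacant, Finset.mem_erase, Finset.mem_erase, mem_vacant, Finset.mem_insert,
              Finset.mem_insert]
            tauto
          have hcard : (vacant 3 n (insert (i, j) X) (insert (w % 4, w / 4) O)).card + 2 =
              (vacant 3 n X O).card := by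
            have hd' : (w % 4, w / 4) ∈ (vacant 3 n X O).erase (i, j) := by
              rw [Finset.mem_erase, mem_vacant]
              exact ⟨hdne, hwB', hwX, hwO⟩
            rw [hvac]
            have e1 := Finset.card_erase_add_one hd'
            have e2 := Finset.card_erase_add_one hc
            omega
          refine ⟨(w % 4, w / 4), hdv, hdom, ih x hxL _ _ k ?_ ?_ hdom ?_ (by omega)⟩
          · rintro y ⟨hyB, hyX, hyO, hyA⟩
            rw [Finset.mem_insert, not_or] at hyX hyO
            have hyB' := mem_B.1 hyB
            refine ⟨hL ⟨hyB, hyX.2, hyO.2, fun p hp => hyA p (Finset.mem_insert_of_mem hp)⟩,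
              ?_, ?_, ?_⟩
            · rintro rfl
              exact hyX.1 (by rw [ex1, ex2])
            · intro ha
              rw [adj_iff (mem_B.1 hxB).1 hyB'.1, ex1, ex2] at ha
              exact hyA (i, j) (Finset.mem_insert_self _ _) ha
            · intro h0
              apply hyO.1
              rw [h0]
          · rintro y ⟨hyR, hyx, hyw, hya⟩
            obtain ⟨hyB, hyX, hyO, hyA⟩ := hR hyR
            have hyB' := mem_B.1 hyB
            refine ⟨hyB, ?_, ?_, ?_⟩
            · rw [Finset.mem_insert, not_or]
              refine ⟨?_, hyX⟩
              intro h0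
              rw [Prod.mk.injEq] at h0
              omega
            · rw [Finset.mem_insert, not_or]
              refine ⟨?_, hyO⟩
              intro h0
              rw [Prod.mk.injEq] at h0
              omega
            · intro p hp
              rw [Finset.mem_insert] at hp
              rcases hp with rfl | hp
              · intro h0
                exact hya ((adj_iff hwB'.1 hyB'.1).2 h0)
              · exact hyA p hp
          · rw [← hcard] at hodd
            rcases hodd with ⟨t, ht⟩
            exact ⟨t - 1, by omega⟩

/-- For every odd `n`, the second player has a winning strategy in Dominono on the board with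
three rows and `n` columns. -/
theorem result : ∀ n : ℕ, Odd n → SecondWins 3 n := by
  intro n hn
  have hcard : (vacant 3 n ∅ ∅).card = 3 * n := by
    unfold vacant board
    simp
  refine ⟨3 * n + 1, wins_of_RW (rw_odd hn) ∅ ∅ (3 * n + 1) ?_ ?_ ?_ ?_ ?_⟩
  · rintro x ⟨hx, _⟩
    exact hx
  · intro x hx
    exact ⟨hx, by simp, by simp, by simp⟩
  · rintro ⟨p, hp, _⟩
    simp at hp
  · rw [hcard]
    exact Odd.mul (by decide) hn
  · rw [hcard]
    omega

end Pool.Agent.Results.MP_ad60cd_co.ThreeRows
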